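import Pool.Agent.Helper40.PR.Defs
import Pool.Agent.Helper8.PR.TK1

namespace PR

open ContinuousLinearMap Polynomial

namespace TK11

variable {X : Type*} [NormedAddCommGroup X] [NormedSpace ℂ X]

/-- If `w` is not a multiple of `v`, some functional kills `v` and is `1` at `w`. -/
theorem exists_sep (v w : X) (h : ∀ c : ℂ, w ≠ c • v) : ∃ f : X →L[ℂ] ℂ, f v = 0 ∧ f w = 1 := by
  by_cases hv : v = 0
  · have hw : w ≠ 0 := by
      intro h0
      exact h 0 (by simp [h0])
    obtain ⟨f, hf⟩ := SeparatingDual.exists_eq_one (R := ℂ) hw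
    exact ⟨f, by simp [hv], hf⟩
  · have hinj : Function.Injective (Fintype.linearCombination ℂ ![v, w]) := by
      rw [← LinearMap.ker_eq_bot, LinearMap.ker_eq_bot']
      intro c hc
      simp only [Fintype.linearCombination_apply, Fin.sum_univ_two, Matrix.cons_val_zero,
        Matrix.cons_val_one] at hc
      have h1 : c 1 = 0 := by
        by_contra h1
        apply h (-(c 1)⁻¹ * c 0)
        have : c 1 • w = -(c 0 • v) := by
          rw [eq_neg_iff_add_eq_zero, add_comm]; exact hc
        have h2 : w = (c 1)⁻¹ • (c 1 • w) := by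
          rw [smul_smul, inv_mul_cancel₀ h1, one_smul]
        rw [h2, this]; module
      have h0 : c 0 = 0 := by
        rw [h1, zero_smul, add_zero] at hc
        rcases smul_eq_zero.mp hc with h' | h'
        · exact h'
        · exact absurd h' hv
      ext i
      fin_cases i
      · exact h0
      · exact h1
    obtain ⟨f, hf⟩ := (SeparatingDual.dualMap_surjective_iff (R := ℂ)).mpr hinj
      (LinearMap.proj 1)
    refine ⟨f, ?_, ?_⟩
    · have := congrArg (fun g => g (Pi.single 0 1)) hf
      simpa [Fintype.linearCombination_apply] using this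
    · have := congrArg (fun g => g (Pi.single 1 1)) hf
      simpa [Fintype.linearCombination_apply] using this

/-- If every functional killing `v` kills `w`, then `w` is a multiple of `v`. -/
theorem exists_smul (v w : X) (h : ∀ f : X →L[ℂ] ℂ, f v = 0 → f w = 0) : ∃ c : ℂ, w = c • v := by
  by_contra hc
  push Not at hc
  obtain ⟨f, hf, hw⟩ := exists_sep v w hc
  have := h f hf
  rw [this] at hw
  exact zero_ne_one hw

theorem scalar_of_off_ker (E : X →L[ℂ] X) (f0 : X →L[ℂ] ℂ) (x1 : X) (hx1 : f0 x1 = 1)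
    (h : ∀ x, f0 x ≠ 0 → ∃ c : ℂ, E x = c • x) : ∃ c : ℂ, E = c • (1 : X →L[ℂ] X) := by
  obtain ⟨μ, hμ⟩ := h x1 (by rw [hx1]; exact one_ne_zero)
  have key : ∀ z, f0 z = 0 → E z = μ • z := by
    intro z hz
    by_cases hz0 : z = 0
    · simp [hz0]
    obtain ⟨c, hc⟩ := h (x1 + z) (by simp [hx1, hz])
    obtain ⟨d, hd⟩ := h (x1 + (2 : ℂ) • z) (by simp [hx1, hz])
    have e1 : E z = (c - μ) • x1 + c • z := by
      have : E z = E (x1 + z) - E x1 := by simp
      rw [this, hc, hμ]; module
    have e2 : (2 : ℂ) • E z = (d - μ) • x1 + (2 * d) • z := by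
      have : (2 : ℂ) • E z = E (x1 + (2 : ℂ) • z) - E x1 := by simp
      rw [this, hd, hμ]; module
    have e3 : (2 * (c - μ)) • x1 + (2 * c) • z = (d - μ) • x1 + (2 * d) • z := by
      rw [← e2, e1]; module
    have e4 : 2 * (c - μ) = d - μ := by
      have := congrArg f0 e3
      simpa [hx1, hz] using this
    have e5 : (2 * c - 2 * d) • z = 0 := by
      rw [e4] at e3
      have := add_left_cancel e3
      rw [sub_smul, this, sub_self]
    have e6 : 2 * c - 2 * d = 0 := by
      rcases smul_eq_zero.mp e5 with h' | h'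
      · exact h'
      · exact absurd h' hz0
    have e7 : c = μ := by linear_combination e4 - (1/2) * e6
    rw [e1, e7]; module
  refine ⟨μ, ?_⟩
  ext x
  have hz : f0 (x - f0 x • x1) = 0 := by simp [hx1]
  have h1 := key _ hz
  have h2 : E x = E (x - f0 x • x1) + f0 x • E x1 := by
    rw [← map_smul, ← map_add]; congr 1; module
  rw [h2, h1, hμ]
  simp only [smul_apply, one_apply_eq_self]
  module

end TK11

open TK11 in
/-- S3. -/
theorem flag_test {X : Type*} [NormedAddCommGroup X] [NormedSpace ℂ X] (T T' : X →L[ℂ] X)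
    (h : ∀ (x : X) (f : X →L[ℂ] ℂ), f x = 0 → ‖f (T' x)‖ = ‖f (T x)‖) :
    ∃ c μ : ℂ, ‖c‖ = 1 ∧ T' = c • T + μ • (1 : X →L[ℂ] X) := by
  by_cases hT : ∀ x, ∃ c : ℂ, T x = c • x
  · -- both are scalar
    have hT' : ∀ x, ∃ c : ℂ, T' x = c • x := by
      intro x
      apply exists_smul
      intro f hf
      obtain ⟨c, hc⟩ := hT x
      have := h x f hf
      rw [hc, map_smul, hf, smul_zero, norm_zero, norm_eq_zero] at this
      exact this
    by_cases hX : ∃ x : X, x ≠ 0
    · obtain ⟨x, hx⟩ := hX
      obtain ⟨f0, hf0⟩ : ∃ f0 : X →L[ℂ] ℂ, f0 x = 1 := by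
        obtain ⟨f, -, hf⟩ := exists_sep 0 x (by intro c; simpa using hx)
        exact ⟨f, hf⟩
      obtain ⟨a, ha⟩ := scalar_of_off_ker T f0 x hf0 (fun x _ => hT x)
      obtain ⟨b, hb⟩ := scalar_of_off_ker T' f0 x hf0 (fun x _ => hT' x)
      refine ⟨1, b - a, by simp, ?_⟩
      rw [ha, hb]; module
    · push Not at hX
      refine ⟨1, 0, by simp, ?_⟩
      ext x
      rw [hX x]; simp
  · push Not at hT
    obtain ⟨x0, hx0⟩ := hT
    obtain ⟨f0, hf0, hf1⟩ := exists_sep x0 (T x0) hx0
    set lam := f0 (T' x0) with hlam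
    have hl1 : ‖lam‖ = 1 := by
      rw [hlam, h x0 f0 hf0, hf1]; simp
    have hx0' : x0 ≠ 0 := by
      intro h0
      exact hx0 0 (by simp [h0])
    -- first step
    have step : ∀ (x : X) (f : X →L[ℂ] ℂ), f0 x ≠ 0 → f x = 0 → f x0 ≠ 0 →
        f (T' x) = lam * f (T x) := by
      intro x f hx hfx hfx0
      let P : ℂ[X] := (1 - Polynomial.X) * C (f x0) * ((1 - Polynomial.X) * C (f0 (T x0)) + Polynomial.X * C (f0 (T x)))
        - Polynomial.X * C (f0 x) * ((1 - Polynomial.X) * C (f (T x0)) + Polynomial.X * C (f (T x)))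
      let Q : ℂ[X] := (1 - Polynomial.X) * C (f x0) * ((1 - Polynomial.X) * C (f0 (T' x0)) + Polynomial.X * C (f0 (T' x)))
        - Polynomial.X * C (f0 x) * ((1 - Polynomial.X) * C (f (T' x0)) + Polynomial.X * C (f (T' x)))
      have hPQ : ∀ t : ℂ, ‖P.eval t‖ = ‖Q.eval t‖ := by
        intro t
        have := h ((1 - t) • x0 + t • x) (((1 - t) * f x0) • f0 - (t * f0 x) • f) (by
          simp [hf0, hfx]; ring)
        have e1 : P.eval t = (((1 - t) * f x0) • f0 - (t * f0 x) • f)
            (T ((1 - t) • x0 + t • x)) := by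
          simp [P]; ring
        have e2 : Q.eval t = (((1 - t) * f x0) • f0 - (t * f0 x) • f)
            (T' ((1 - t) • x0 + t • x)) := by
          simp [Q]; ring
        rw [e1, e2, this]
      obtain ⟨c, hc, hcPQ⟩ := poly_norm_eq P Q hPQ
      have e0 : f x0 * f0 (T' x0) = c * (f x0 * f0 (T x0)) := by
        have := congrArg (fun R : ℂ[X] => R.eval 0) hcPQ
        simpa [P, Q] using this
      have e1 : f0 x * f (T' x) = c * (f0 x * f (T x)) := by
        have := congrArg (fun R : ℂ[X] => R.eval 1) hcPQ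
        simpa [P, Q] using this
      have hcl : c = lam := by
        rw [hf1, mul_one, mul_comm c, ← hlam] at e0
        exact (mul_left_cancel₀ hfx0 e0).symm
      rw [hcl] at e1
      have : f0 x * f (T' x) = f0 x * (lam * f (T x)) := by rw [e1]; ring
      exact mul_left_cancel₀ hx this
    -- second step: `E = T' - lam T` has all vectors off `ker f0` as eigenvectors
    have step2 : ∀ x, f0 x ≠ 0 → ∃ c : ℂ, (T' - lam • T) x = c • x := by
      intro x hx
      apply exists_smul
      intro f hfx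
      obtain ⟨f1, hf1x, hf1x0⟩ := exists_sep x x0 (by
        intro c hc
        have h1 : f0 x0 = c * f0 x := by rw [hc]; simp
        rw [hf0] at h1
        rcases mul_eq_zero.mp h1.symm with h' | h'
        · exact hx0' (by rw [hc, h', zero_smul])
        · exact hx h')
      have hE : ∀ g : X →L[ℂ] ℂ, g x = 0 → g x0 ≠ 0 → g ((T' - lam • T) x) = 0 := by
        intro g hg hg0
        have := step x g hx hg hg0
        simp [this]
      by_cases hfx0 : f x0 = 0
      · have a1 := hE f1 hf1x (by rw [hf1x0]; exact one_ne_zero)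
        have a2 := hE (f + f1) (by simp [hfx, hf1x]) (by simp [hfx0, hf1x0])
        rw [add_apply, a1, add_zero] at a2
        exact a2
      · exact hE f hfx hfx0
    obtain ⟨μ, hμ⟩ := scalar_of_off_ker (T' - lam • T) f0 (T x0) hf1 step2
    refine ⟨lam, μ, hl1, ?_⟩
    rw [← hμ]; module

end PR
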